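import Pool.Agent.Helper94.GA.Goals

/-!
# Packet ENT2: two step chain inequality for entropies of maps on a product
-/

namespace Pool.Agent.Helper27.GA

open Finset
open Pool.Agent.Helper94.GA

universe u v w

theorem natCard_fiber_eq {Ω : Type u} {X : Type v} [Fintype Ω] [DecidableEq X] (g : Ω → X)
    (x : X) : Nat.card {ω' // g ω' = x} = #{ω' : Ω | g ω' = x} := by
  classical
  rw [Nat.card_eq_fintype_card, Fintype.card_subtype]

theorem ENT2 : ENT2_stmt.{u, v, w} := by
  classical
  intro B C X Y _ _ _ _ g f
  have hB : (0 : ℝ) < Fintype.card B := by exact_mod_cast Fintype.card_pos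
  have hC : (0 : ℝ) < Fintype.card C := by exact_mod_cast Fintype.card_pos
  -- multiplicities
  set k : B → ℝ := fun b => (#{b' : B | g b' = g b} : ℝ) with hk
  set m : B → Y → ℝ := fun b y => (#{c' : C | f b c' = y} : ℝ) with hm
  set M : B → C → ℝ := fun b c => ∑ b' with g b' = g b, m b' (f b c) with hM
  have hkpos : ∀ b, 0 < k b := by
    intro b
    have : 0 < #{b' : B | g b' = g b} := Finset.card_pos.mpr ⟨b, by simp⟩
    simp only [hk]
    exact_mod_cast this
  have hm0 : ∀ b y, 0 ≤ m b y := fun b y => by simp only [hm]; positivity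
  have hmpos : ∀ b c, 0 < m b (f b c) := by
    intro b c
    have : 0 < #{c' : C | f b c' = f b c} := Finset.card_pos.mpr ⟨c, by simp⟩
    simp only [hm]
    exact_mod_cast this
  have hMpos : ∀ b c, 0 < M b c := by
    intro b c
    have h1 : m b (f b c) ≤ M b c := by
      simp only [hM]
      exact Finset.single_le_sum (f := fun b' => m b' (f b c)) (fun b' _ => hm0 b' _) (by simp)
    exact lt_of_lt_of_le (hmpos b c) h1
  -- the three entropies
  have e1 : ent g = Real.log (Fintype.card B) - (∑ b, Real.log (k b)) / Fintype.card B := by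
    unfold ent
    congr 2
    refine Finset.sum_congr rfl fun b _ => ?_
    rw [natCard_fiber_eq]
  have e2 : ∀ b, ent (f b) = Real.log (Fintype.card C) -
      (∑ c, Real.log (m b (f b c))) / Fintype.card C := by
    intro b
    unfold ent
    congr 2
    refine Finset.sum_congr rfl fun c _ => ?_
    rw [natCard_fiber_eq]
  have hcount : ∀ b c, (#{p : B × C | (g p.1, f p.1 p.2) = (g b, f b c)} : ℝ) = M b c := by
    intro b c
    have h1 : ({p : B × C | (g p.1, f p.1 p.2) = (g b, f b c)} : Finset (B × C)) =
        (({b' : B | g b' = g b} : Finset B).sigma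
          (fun b' => ({c' : C | f b' c' = f b c} : Finset C))).map ⟨fun s => (s.1, s.2), by
            rintro ⟨a, b⟩ ⟨c, d⟩ h
            simp only [Prod.mk.injEq] at h
            obtain ⟨rfl, rfl⟩ := h
            rfl⟩ := by
      ext ⟨b', c'⟩
      simp only [Finset.mem_filter, Finset.mem_univ, true_and, Prod.mk.injEq, Finset.mem_map,
        Finset.mem_sigma, Function.Embedding.coeFn_mk]
      constructor
      · rintro ⟨h1, h2⟩
        exact ⟨⟨b', c'⟩, ⟨h1, h2⟩, rfl, rfl⟩
      · rintro ⟨⟨x, y⟩, ⟨h1, h2⟩, h3, h4⟩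
        dsimp only at h1 h2 h3 h4
        subst h3 h4
        exact ⟨h1, h2⟩
    rw [h1, Finset.card_map, Finset.card_sigma, Nat.cast_sum]
  have e3 : ent (fun p : B × C => (g p.1, f p.1 p.2)) =
      Real.log (Fintype.card B) + Real.log (Fintype.card C) -
      (∑ b, ∑ c, Real.log (M b c)) / (Fintype.card B * Fintype.card C) := by
    unfold ent
    have h1 : Real.log ((Fintype.card (B × C) : ℕ) : ℝ) =
        Real.log (Fintype.card B) + Real.log (Fintype.card C) := by
      rw [Fintype.card_prod, Nat.cast_mul, Real.log_mul hB.ne' hC.ne']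
    rw [h1, Fintype.card_prod, Nat.cast_mul]
    congr 2
    rw [Fintype.sum_prod_type]
    refine Finset.sum_congr rfl fun b _ => Finset.sum_congr rfl fun c _ => ?_
    rw [natCard_fiber_eq, hcount]
  -- the key inequality
  have key1 : ∀ b b', ∑ c, m b' (f b c) / m b (f b c) ≤ Fintype.card C := by
    intro b b'
    have h1 : ∑ c, m b' (f b c) / m b (f b c) =
        ∑ y ∈ univ.image (f b), m b' y := by
      have h2 := Finset.sum_comp (s := (univ : Finset C)) (fun y => m b' y / m b y) (f b)
      rw [h2]
      refine Finset.sum_congr rfl fun y hy => ?_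
      obtain ⟨c, -, rfl⟩ := Finset.mem_image.mp hy
      have h3 := (hmpos b c).ne'
      rw [nsmul_eq_mul]
      change m b (f b c) * (m b' (f b c) / m b (f b c)) = m b' (f b c)
      field_simp
    rw [h1]
    have h4 : ∑ y ∈ univ.image (f b), #{c' : C | f b' c' = y} ≤ Fintype.card C := by
      have h41 := Finset.sum_card_fiberwise_eq_card_filter (univ : Finset C)
        (univ.image (f b)) (f b')
      rw [h41]
      exact (Finset.card_filter_le _ _).trans (le_of_eq Finset.card_univ)
    have h5 : ((∑ y ∈ univ.image (f b), #{c' : C | f b' c' = y} : ℕ) : ℝ) ≤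
        (Fintype.card C : ℝ) := by exact_mod_cast h4
    rw [Nat.cast_sum] at h5
    exact h5
  have key2 : ∀ b, ∑ c, M b c / (k b * m b (f b c)) ≤ Fintype.card C := by
    intro b
    have h1 : ∑ c, M b c / (k b * m b (f b c)) =
        (∑ b' with g b' = g b, ∑ c, m b' (f b c) / m b (f b c)) / k b := by
      rw [Finset.sum_comm, Finset.sum_div]
      refine Finset.sum_congr rfl fun c _ => ?_
      rw [← Finset.sum_div, div_div, mul_comm (m b (f b c)) (k b)]
    rw [h1, div_le_iff₀ (hkpos b)]
    calc ∑ b' with g b' = g b, ∑ c, m b' (f b c) / m b (f b c)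
        ≤ ∑ b' with g b' = g b, (Fintype.card C : ℝ) := Finset.sum_le_sum fun b' _ => key1 b b'
      _ = (Fintype.card C : ℝ) * k b := by
          rw [Finset.sum_const, nsmul_eq_mul, mul_comm]
  have key3 : ∑ b, ∑ c, (Real.log (M b c) - Real.log (k b) - Real.log (m b (f b c))) ≤ 0 := by
    calc ∑ b, ∑ c, (Real.log (M b c) - Real.log (k b) - Real.log (m b (f b c)))
        ≤ ∑ b, ∑ c, (M b c / (k b * m b (f b c)) - 1) := by
          refine Finset.sum_le_sum fun b _ => Finset.sum_le_sum fun c _ => ?_
          have h1 : Real.log (M b c) - Real.log (k b) - Real.log (m b (f b c)) =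
              Real.log (M b c / (k b * m b (f b c))) := by
            rw [Real.log_div (hMpos b c).ne' (mul_pos (hkpos b) (hmpos b c)).ne',
              Real.log_mul (hkpos b).ne' (hmpos b c).ne']
            ring
          rw [h1]
          exact Real.log_le_sub_one_of_pos
            (div_pos (hMpos b c) (mul_pos (hkpos b) (hmpos b c)))
      _ = ∑ b, ((∑ c, M b c / (k b * m b (f b c))) - Fintype.card C) := by
          refine Finset.sum_congr rfl fun b _ => ?_
          rw [Finset.sum_sub_distrib, Finset.sum_const, Finset.card_univ, nsmul_eq_mul, mul_one]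
      _ ≤ ∑ b : B, (0 : ℝ) := Finset.sum_le_sum fun b _ => by
          have := key2 b
          linarith
      _ = 0 := by simp
  have key4 : ∑ b, ∑ c, Real.log (M b c) ≤
      Fintype.card C * ∑ b, Real.log (k b) + ∑ b, ∑ c, Real.log (m b (f b c)) := by
    have h1 : ∑ b, ∑ c, (Real.log (M b c) - Real.log (k b) - Real.log (m b (f b c))) =
        ∑ b, ∑ c, Real.log (M b c) - Fintype.card C * ∑ b, Real.log (k b) -
          ∑ b, ∑ c, Real.log (m b (f b c)) := by
      rw [Finset.mul_sum, ← Finset.sum_sub_distrib, ← Finset.sum_sub_distrib]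
      refine Finset.sum_congr rfl fun b _ => ?_
      rw [Finset.sum_sub_distrib, Finset.sum_sub_distrib, Finset.sum_const, Finset.card_univ,
        nsmul_eq_mul]
    linarith
  -- conclusion
  rw [e1, e3]
  simp only [e2]
  rw [Finset.sum_sub_distrib, Finset.sum_const, Finset.card_univ, nsmul_eq_mul,
    ← Finset.sum_div]
  have h5 : (∑ b, ∑ c, Real.log (M b c)) / (Fintype.card B * Fintype.card C : ℝ) ≤
      (∑ b, Real.log (k b)) / Fintype.card B +
      (∑ b, ∑ c, Real.log (m b (f b c))) / Fintype.card C / Fintype.card B := by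
    rw [div_add_div _ _ hB.ne' hB.ne', div_le_div_iff₀ (by positivity) (by positivity)]
    have h6 := mul_le_mul_of_nonneg_left key4 (by positivity :
      (0 : ℝ) ≤ (Fintype.card B : ℝ) * Fintype.card B)
    have h7 : (Fintype.card C : ℝ) * ((∑ b, ∑ c, Real.log (m b (f b c))) / Fintype.card C) =
        ∑ b, ∑ c, Real.log (m b (f b c)) := by
      field_simp
    have h8 : ((∑ b, Real.log (k b)) * (Fintype.card B : ℝ) + (Fintype.card B : ℝ) *
        ((∑ b, ∑ c, Real.log (m b (f b c))) / Fintype.card C)) *
        ((Fintype.card B : ℝ) * Fintype.card C) = (Fintype.card B : ℝ) * Fintype.card B *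
        (Fintype.card C * ∑ b, Real.log (k b) + (Fintype.card C : ℝ) *
          ((∑ b, ∑ c, Real.log (m b (f b c))) / Fintype.card C)) := by
      ring
    rw [h8, h7]
    calc (∑ b, ∑ c, Real.log (M b c)) * ((Fintype.card B : ℝ) * Fintype.card B)
        = (Fintype.card B : ℝ) * Fintype.card B * ∑ b, ∑ c, Real.log (M b c) := by ring
      _ ≤ _ := h6
  have h9 : (Fintype.card B * Real.log (Fintype.card C) -
      (∑ b, ∑ c, Real.log (m b (f b c))) / Fintype.card C) / Fintype.card B =
      Real.log (Fintype.card C) -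
      (∑ b, ∑ c, Real.log (m b (f b c))) / Fintype.card C / Fintype.card B := by
    rw [sub_div, mul_div_cancel_left₀ _ hB.ne']
  rw [h9]
  linarith

end Pool.Agent.Helper27.GA
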